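import Mathlib
import Pool.Agent.KS6_82.MS.A
import Pool.Agent.KS6_82.MS.B

set_option autoImplicit false

namespace Pool.Agent.Results.MP_f4a1d1_an.SelfMaps

open Pool.Agent.KS6_82.MS

/-- **Main theorem.**  Let `Z` be a real Banach space, `R` a real number and `θ` a nondecreasing
real function.  There are a Banach space `E` which contains `Z` isometrically (via `j`), a
projection `q` of `E` onto `Z` of norm at most one, and a bijection `U` of `E` onto *itself* which
fixes `Z` pointwise, commutes with the projection, preserves all distances which are at most `R`,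
increases no distance, and is far from being an isometry: for every `T` there is `x` with
`‖U x‖ ≥ T`, `‖x‖ > ‖U x‖` and `‖x‖ ≥ θ ‖U x‖`. -/
theorem result (Z : Type) [NormedAddCommGroup Z] [NormedSpace ℝ Z] [CompleteSpace Z]
    (R : ℝ) (θ : ℝ → ℝ) (hθ : Monotone θ) :
    ∃ (E : Type) (_ : NormedAddCommGroup E) (_ : NormedSpace ℝ E) (_ : CompleteSpace E)
      (j : Z →ₗᵢ[ℝ] E) (q : E →L[ℝ] Z) (U : E ≃ E),
      (∀ z, q (j z) = z) ∧ (∀ x, ‖q x‖ ≤ ‖x‖) ∧
      (∀ z, U (j z) = j z) ∧ (∀ x, q (U x) = q x) ∧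
      (∀ x y, dist x y ≤ R → dist (U x) (U y) = dist x y) ∧
      (∀ x y, dist (U x) (U y) ≤ dist x y) ∧
      ∀ T : ℝ, ∃ x, T ≤ ‖U x‖ ∧ ‖U x‖ < ‖x‖ ∧ θ ‖U x‖ ≤ ‖x‖ := by
  set c : ℝ := |R| + 1 with hc
  have hc0 : 0 < c := by positivity
  have hcR : R ≤ c * 2 := (le_abs_self R).trans (by linarith [abs_nonneg R])
  let P : Par := ⟨fun t => θ (c * t) / c⟩
  obtain ⟨E, i1, i2, i3, j, q, V, h1, h2, h3, h4, h5, h6, h7⟩ :=
    selfMap (X := X) (Y := Y) (Z := Z) (u := Equiv.ofBijective U U_bij) two_pos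
      (fun a b h => by
        have := U_dist_loc (x := a) (y := b) (by rw [dist_eq_norm]; exact h)
        rwa [dist_eq_norm, dist_eq_norm] at this)
      (fun a b => by
        have := U_dist_le a b
        rwa [dist_eq_norm, dist_eq_norm] at this) U_zero hc0
  refine ⟨E, i1, i2, i3, j, q, V, h1, h2, h3, h4, fun x y h => h5 x y (h.trans hcR), h6,
    fun T => ?_⟩
  obtain ⟨β, hact, hT⟩ := unbounded (T / c)
  obtain ⟨x, e1, e2⟩ := h7 (p β)
  change ‖V x‖ = c * ‖U (p β)‖ at e1
  rw [norm_p] at e2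
  refine ⟨x, ?_, ?_, ?_⟩
  · rw [e1, mul_comm]
    exact (div_le_iff₀ hc0).1 hT
  · rw [e1, e2]
    have k1 := norm_U_p hact
    have k2 := M_le_N β
    exact mul_lt_mul_of_pos_left (by linarith) hc0
  · rw [e1, e2]
    have k1 : θ (c * ‖U (p β)‖) ≤ θ (c * M β) :=
      hθ (mul_le_mul_of_nonneg_left (norm_U_p hact) hc0.le)
    have k2 : θ (c * M β) / c ≤ N β := by
      have : θ (c * M β) / c ≤ |Par.θ (M β)| := le_abs_self _
      exact this.trans (le_add_of_nonneg_left (M_nonneg β))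
    rw [div_le_iff₀ hc0] at k2
    nlinarith

end Pool.Agent.Results.MP_f4a1d1_an.SelfMaps
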